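import Pool.Agent.Helper48.AA.Goals
import Mathlib

/-!
# Project AA (MP_6c0525_nt): packet LS (sums of reciprocals of least common multiples)
-/

set_option autoImplicit false

open Finset

open scoped Classical

namespace Pool.Agent.Helper90.AA

open Pool.Agent.Helper48.AA

theorem sqf_prod {s : Finset ℕ} (hs : ∀ p ∈ s, p.Prime) : Squarefree (∏ p ∈ s, p) := by
  refine Finset.squarefree_prod_of_pairwise_isCoprime (fun p hp q hq hpq => ?_)
    fun p hp => (hs p hp).squarefree
  simp only [Function.onFun, ← Nat.coprime_iff_isRelPrime]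
  exact (Nat.coprime_primes (hs p hp) (hs q hq)).mpr hpq

theorem card_div {n : ℕ} (hn : Squarefree n) : n.divisors.card = 2 ^ n.primeFactors.card := by
  rw [Nat.card_divisors hn.ne_zero, ← Finset.prod_const]
  refine Finset.prod_congr rfl fun p hp => ?_
  have h1 : n.factorization p ≤ 1 := hn.natFactorization_le_one p
  have h2 : 0 < n.factorization p :=
    (Nat.prime_of_mem_primeFactors hp).factorization_pos_of_dvd hn.ne_zero
      (Nat.dvd_of_mem_primeFactors hp)
  omega

section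

variable {r : ℕ} {P : Finset ℕ}

theorem lcm_dvd {d : Fin r → ℕ} (hd : d ∈ Tp r P) : univ.lcm d ∣ ∏ p ∈ P, p :=
  Finset.lcm_dvd fun i _ => Nat.dvd_of_mem_divisors (Fintype.mem_piFinset.1 hd i)

theorem lcm_sqf (hP : ∀ p ∈ P, p.Prime) {d : Fin r → ℕ} (hd : d ∈ Tp r P) :
    Squarefree (univ.lcm d) := (sqf_prod hP).squarefree_of_dvd (lcm_dvd hd)

theorem pf_sub (hP : ∀ p ∈ P, p.Prime) {d : Fin r → ℕ} (hd : d ∈ Tp r P) :
    (univ.lcm d).primeFactors ⊆ P := by
  have h := Nat.primeFactors_mono (lcm_dvd hd) (sqf_prod hP).ne_zero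
  rwa [Nat.primeFactors_prod hP] at h

theorem key (hP : ∀ p ∈ P, p.Prime) (U : Finset (Finset ℕ)) (hU : U ⊆ P.powerset) :
    ∑ d ∈ (Tp r P).filter (fun d => (univ.lcm d).primeFactors ∈ U), 1 / ((univ.lcm d : ℕ) : ℝ)
      ≤ ∑ s ∈ U, ∏ p ∈ s, (2 ^ r / (p : ℝ)) := by
  rw [← Finset.sum_fiberwise_of_maps_to (s := (Tp r P).filter
    (fun d => (univ.lcm d).primeFactors ∈ U)) (t := U) (g := fun d => (univ.lcm d).primeFactors)
    (fun d hd => (Finset.mem_filter.1 hd).2)]
  refine Finset.sum_le_sum fun s hs => ?_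
  have hsP : s ⊆ P := Finset.mem_powerset.1 (hU hs)
  have hsp : ∀ p ∈ s, p.Prime := fun p hp => hP p (hsP hp)
  have hpos : 0 < ∏ p ∈ s, p := Finset.prod_pos fun p hp => (hsp p hp).pos
  set F := ((Tp r P).filter (fun d => (univ.lcm d).primeFactors ∈ U)).filter
    (fun d => (univ.lcm d).primeFactors = s) with hF
  have h1 : ∀ d ∈ F, univ.lcm d = ∏ p ∈ s, p := by
    intro d hd
    rw [hF, Finset.mem_filter, Finset.mem_filter] at hd
    rw [← hd.2, Nat.prod_primeFactors_of_squarefree (lcm_sqf hP hd.1.1)]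
  have h2 : F ⊆ Fintype.piFinset (fun _ : Fin r => (∏ p ∈ s, p).divisors) := by
    intro d hd
    rw [Fintype.mem_piFinset]
    intro i
    rw [Nat.mem_divisors]
    refine ⟨?_, hpos.ne'⟩
    rw [← h1 d hd]
    exact Finset.dvd_lcm (Finset.mem_univ i)
  have h3 : (F.card : ℝ) ≤ (2 ^ s.card) ^ r := by
    have h4 := Finset.card_le_card h2
    rw [Fintype.card_piFinset_const, card_div (sqf_prod hsp), Nat.primeFactors_prod hsp] at h4
    exact_mod_cast h4
  calc ∑ d ∈ F, 1 / ((univ.lcm d : ℕ) : ℝ)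
      = ∑ d ∈ F, 1 / ((∏ p ∈ s, p : ℕ) : ℝ) := Finset.sum_congr rfl fun d hd => by rw [h1 d hd]
    _ = F.card * (1 / ((∏ p ∈ s, p : ℕ) : ℝ)) := by rw [Finset.sum_const, nsmul_eq_mul]
    _ ≤ (2 ^ s.card) ^ r * (1 / ((∏ p ∈ s, p : ℕ) : ℝ)) :=
        mul_le_mul_of_nonneg_right h3 (by positivity)
    _ = ∏ p ∈ s, (2 ^ r / (p : ℝ)) := by
        rw [Finset.prod_div_distrib, Finset.prod_const, Nat.cast_prod, ← pow_mul, ← pow_mul,
          mul_comm s.card r, mul_one_div]

end

theorem gLS : StmtLS := by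
  intro r P hP
  constructor
  · have h1 := key (r := r) hP P.powerset (Finset.Subset.refl _)
    rw [← Finset.prod_one_add] at h1
    have h2 : (Tp r P).filter (fun d => (univ.lcm d).primeFactors ∈ P.powerset) = Tp r P :=
      Finset.filter_true_of_mem fun d hd => Finset.mem_powerset.2 (pf_sub hP hd)
    rwa [h2] at h1
  · intro q hq
    have h1 := key (r := r) hP (P.powerset.filter (fun s => q ∈ s)) (Finset.filter_subset _ _)
    have h2 : (Tp r P).filter (fun d => (univ.lcm d).primeFactors ∈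
        P.powerset.filter (fun s => q ∈ s)) = (Tp r P).filter (fun d => q ∣ univ.lcm d) := by
      refine Finset.filter_congr fun d hd => ?_
      rw [Finset.mem_filter, Finset.mem_powerset]
      constructor
      · rintro ⟨-, h⟩
        exact Nat.dvd_of_mem_primeFactors h
      · intro h
        exact ⟨pf_sub hP hd, Nat.mem_primeFactors.2 ⟨hP q hq, h, (lcm_sqf hP hd).ne_zero⟩⟩
    rw [h2] at h1
    refine h1.trans ?_
    have h3 : ∑ s ∈ P.powerset.filter (fun s => q ∈ s), ∏ p ∈ s, (2 ^ r / (p : ℝ)) =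
        2 ^ r / q * ∏ p ∈ P.erase q, (1 + 2 ^ r / (p : ℝ)) := by
      have hq' : q ∉ P.erase q := Finset.notMem_erase q P
      rw [Finset.sum_filter]
      conv_lhs => rw [← Finset.insert_erase hq]
      rw [Finset.sum_powerset_insert hq', Finset.prod_one_add, Finset.mul_sum]
      have h4 : ∑ t ∈ (P.erase q).powerset, (if q ∈ t then ∏ p ∈ t, (2 ^ r / (p : ℝ)) else 0)
          = 0 := by
        refine Finset.sum_eq_zero fun t ht => if_neg fun h => hq' (Finset.mem_powerset.1 ht h)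
      rw [h4, zero_add]
      refine Finset.sum_congr rfl fun t ht => ?_
      have h5 : q ∉ t := fun h => hq' (Finset.mem_powerset.1 ht h)
      rw [if_pos (Finset.mem_insert_self q t), Finset.prod_insert h5]
    rw [h3]
    refine mul_le_mul_of_nonneg_left ?_ (by positivity)
    rw [← Finset.mul_prod_erase P (fun p => (1 + 2 ^ r / (p : ℝ))) hq]
    have h6 : 0 ≤ ∏ p ∈ P.erase q, (1 + 2 ^ r / (p : ℝ)) :=
      Finset.prod_nonneg fun p _ => by positivity
    have h7 : (0 : ℝ) ≤ 2 ^ r / (q : ℝ) := by positivity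
    nlinarith [mul_nonneg h7 h6]

end Pool.Agent.Helper90.AA
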